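import Pool.Agent.ALQ.Main

/-!
# MP_893f58_al: polynomial automorphic growth and the growth of the modular group algebras
-/

set_option autoImplicit false

namespace Pool.Agent.Results.MP_893f58_al.GroupAlgebraGrowth

open AG ALG

/-- Let `G` be a group generated by the finite set `S`, whose automorphic growth is bounded by a polynomial, `H` a subgroup
of finite index in `G`, `p` a prime and `aug p H` the augmentation ideal of the group algebra of `H` over the field with `p`
elements. Then there is `C > 0` such that for all `n ≥ 1` the quotient of the group algebra by the `n`-th power of `aug p H` is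
finite dimensional, of dimension at most `exp (C √n (log (n + 2)) ^ 3)`. -/
theorem result {G : Type*} [Group G] (S : Finset G) (hS : Subgroup.closure (S : Set G) = ⊤)
    (H : Subgroup G) [H.FiniteIndex] (p : ℕ) (hp : p.Prime) (h : PolyBdd (autGrowth S)) :
    ∃ C : ℝ, 0 < C ∧ ∀ n : ℕ, 1 ≤ n →
      Module.Finite (ZMod p) (MonoidAlgebra (ZMod p) H ⧸ (aug p H) ^ n) ∧
      (Module.finrank (ZMod p) (MonoidAlgebra (ZMod p) H ⧸ (aug p H) ^ n) : ℝ) ≤
        Real.exp (C * Real.sqrt n * Real.log (n + 2) ^ 3) :=
  ALQ.final S hS H hp h

end Pool.Agent.Results.MP_893f58_al.GroupAlgebraGrowth
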