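import Pool.Agent.ALP.Main

/-!
# MP_893f58_al: automorphic growth and linear representations over arbitrary fields
-/

set_option autoImplicit false

universe u v

namespace Pool.Agent.Results.MP_893f58_al.LinearImage

open AG ALG

/-- Let `G` be a group generated by the finite set `S`, and suppose that a subgroup `H` of finite index in `G` has a
finite-dimensional representation over some field (of any characteristic) whose image is not virtually nilpotent. Then
the automorphic growth of `G` is not bounded by a polynomial. -/
theorem result {G : Type u} [Group G] (S : Finset G) (hS : Subgroup.closure (S : Set G) = ⊤)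
    (H : Subgroup G) [H.FiniteIndex] (K : Type v) [Field K] (N : ℕ)
    (ρ : H →* Matrix.GeneralLinearGroup (Fin N) K) (hρ : ¬ Group.IsVirtuallyNilpotent ρ.range) :
    ¬ PolyBdd (autGrowth S) :=
  ALP.final S hS H N ρ hρ

end Pool.Agent.Results.MP_893f58_al.LinearImage
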