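import Pool.Agent.ALN.Main

/-!
# MP_893f58_al: automorphic growth and torsion-free nilpotent quotients
-/

set_option autoImplicit false

universe u

namespace Pool.Agent.Results.MP_893f58_al.NilpotentLayers

open AG ALG

/-- Let `G` be a group generated by the finite set `S` and `H` a subgroup of finite index in `G`, with the lower central
series `γ 0 = H`, `γ (k + 1) = ⁅γ k, H⁆`. If `γ k / γ (k + 1)` is infinite then `n ^ (k + 1) ≼ a(n)` for the automorphic
growth `a` of `G`. So if this holds for all `k` then `a` is not bounded by a polynomial. -/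
theorem result {G : Type u} [Group G] (S : Finset G) (hS : Subgroup.closure (S : Set G) = ⊤)
    (H : Subgroup G) [H.FiniteIndex] :
    (∀ k : ℕ, ((⊤ : Subgroup H).lowerCentralSeries (k + 1)).relIndex
        ((⊤ : Subgroup H).lowerCentralSeries k) = 0 →
      Dom (fun n => n ^ (k + 1)) (autGrowth S)) ∧
    ((∀ k : ℕ, ((⊤ : Subgroup H).lowerCentralSeries (k + 1)).relIndex
        ((⊤ : Subgroup H).lowerCentralSeries k) = 0) → ¬ PolyBdd (autGrowth S)) :=
  ⟨fun k hk => ALN.dom_of_layer S hS H k hk, fun h => ALN.not_polyBdd_of_layers S hS H h⟩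

end Pool.Agent.Results.MP_893f58_al.NilpotentLayers
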