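import Pool.Agent.AM.F4

/-!
# MP_893f58_al: automorphic growth of groups with a virtually solvable or free quotient of a subgroup of finite index
-/

set_option autoImplicit false

namespace Pool.Agent.Results.MP_893f58_al.VirtuallySolvableQuotient

open AG AM

/-- Some subgroup `H` of finite index in `G` has a quotient `H ⧸ M` which is virtually solvable and not virtually nilpotent, or free of
rank two. -/
def BigQuotient (G : Type*) [Group G] : Prop :=
  ∃ (H : Subgroup G) (M : Subgroup H) (_ : M.Normal), H.FiniteIndex ∧
    ((VirtSolvable (H ⧸ M) ∧ ¬ Group.IsVirtuallyNilpotent (H ⧸ M)) ∨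
      Nonempty ((H ⧸ M) ≃* FreeGroup (Fin 2)))

/-- Let `G` be a group generated by the finite set `S`, such that a subgroup of finite index in `G` has a quotient which is virtually
solvable and not virtually nilpotent, or free of rank two. Then the automorphic growth of `G` is exponential. -/
theorem result {G : Type*} [Group G] (S : Finset G) (hS : Subgroup.closure (S : Set G) = ⊤)
    (h : BigQuotient G) : Exponential (autGrowth S) := by
  obtain ⟨H, M, hM, hH, h | ⟨⟨e⟩⟩⟩ := h
  · exact AM.final S hS (Or.inl ⟨H, M, hM, hH, h⟩)
  · exact AM.final S hS (Or.inr ⟨H, e.toMonoidHom.comp (QuotientGroup.mk' M), hH,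
      e.surjective.comp (QuotientGroup.mk'_surjective M)⟩)

end Pool.Agent.Results.MP_893f58_al.VirtuallySolvableQuotient
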